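import Pool.Agent.W553.PM.Stm

/-! PM-NCONT: continuity and homogeneity of the perpendicular field. -/

set_option autoImplicit false

namespace Pool.Agent.W352.PM

open Pool.Agent.W553.PM Set Filter Topology

lemma dt_smul_left (c : ℝ) (u v : P) : dt (c • u) v = c * dt u v := by
  simp only [dt, Prod.smul_fst, Prod.smul_snd, smul_eq_mul]; ring

lemma dt_smul_right (c : ℝ) (u v : P) : dt u (c • v) = c * dt u v := by
  simp only [dt, Prod.smul_fst, Prod.smul_snd, smul_eq_mul]; ring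

lemma dt_zero_right (u : P) : dt u 0 = 0 := by simp [dt]

lemma dt_cont : Continuous (fun p : P × P => dt p.1 p.2) := by
  unfold dt
  fun_prop

/-- a small positive multiple stays in `M` -/
lemma small_mem {M : Set P} (hM : IsOpen M) {O : P} (hO : O ∈ M) (w : P) :
    ∃ l : ℝ, 0 < l ∧ O + l • w ∈ M := by
  have h1 : Tendsto (fun l : ℝ => O + l • w) (𝓝[>] 0) (𝓝 (O + (0 : ℝ) • w)) := by
    have : Continuous (fun l : ℝ => O + l • w) := by fun_prop
    exact (this.tendsto 0).mono_left nhdsWithin_le_nhds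
  rw [zero_smul, add_zero] at h1
  have h2 := h1 (hM.mem_nhds hO)
  have h3 : ∀ᶠ l : ℝ in 𝓝[>] 0, 0 < l := self_mem_nhdsWithin
  obtain ⟨l, hl1, hl2⟩ := (h3.and h2).exists
  exact ⟨l, hl1, hl2⟩

theorem T_nhom : S_nhom := by
  intro M d n H hn O hO u hu c hc
  obtain ⟨l, hl, hX⟩ := small_mem H.opn hO (n O u)
  have hcu : c • u ≠ 0 := smul_ne_zero hc hu
  obtain ⟨l', hl'⟩ := hn.n3 O hO (c • u) hcu (O + l • n O u) hX (fun t ht => by
    rcases eq_or_ne t 0 with h0 | h0
    · rw [h0, zero_smul, add_zero]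
    · have ht' : O + (t * c) • u ∈ M := by rw [mul_smul]; exact ht
      have h1 := (hn.n2 O hO u hu l (t * c) (mul_ne_zero h0 hc) hX ht').le
      rw [mul_smul] at h1
      exact h1)
  have h1 : l • n O u = l' • n O (c • u) := add_left_cancel hl'
  have h2 := congrArg (dt u) h1
  rw [dt_smul_right, dt_smul_right, hn.n1 O hO u hu] at h2
  have h3 := hn.n1 O hO (c • u) hcu
  rw [dt_smul_left] at h3
  have h4 : l' = l * c := by
    have : l' * (c * dt u (n O (c • u))) = l * c := by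
      rw [show l' * (c * dt u (n O (c • u))) = (l' * dt u (n O (c • u))) * c by ring, ← h2]
      ring
    rwa [h3, mul_one] at this
  rw [h4, mul_smul] at h1
  have h5 : n O u = c • n O (c • u) := smul_right_injective P hl.ne' h1
  rw [h5, smul_smul, inv_mul_cancel₀ hc, one_smul]

theorem T_ncont : S_ncont := by
  intro M d n H hn
  rintro ⟨O, u⟩ ⟨hO, hu⟩
  simp only [Set.mem_ofPred_eq] at hO hu
  rw [ContinuousWithinAt]
  apply tendsto_of_subseq_tendsto
  intro ns hns
  have hns1 : Tendsto ns atTop (𝓝 (O, u)) := hns.mono_right nhdsWithin_le_nhds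
  have hnsM : ∀ᶠ k in atTop, ns k ∈ M ×ˢ {u : P | u ≠ 0} :=
    hns (self_mem_nhdsWithin)
  set v : ℕ → P := fun k => n (ns k).1 (ns k).2 with hv
  set w : ℕ → P := fun k => ‖v k‖⁻¹ • v k with hw
  have hwmem : ∀ k, w k ∈ Metric.closedBall (0 : P) 1 := by
    intro k
    rw [mem_closedBall_zero_iff, hw]
    simp only [norm_smul, norm_inv, norm_norm]
    rcases eq_or_ne ‖v k‖ 0 with h | h
    · rw [h]; simp
    · rw [inv_mul_cancel₀ h]
  obtain ⟨w0, -, ms, hms, hlim⟩ := (isCompact_closedBall (0 : P) 1).tendsto_subseq hwmem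
  refine ⟨ms, ?_⟩
  have hmst : Tendsto ms atTop atTop := hms.tendsto_atTop
  have hO' : Tendsto (fun k => (ns (ms k)).1) atTop (𝓝 O) :=
    ((continuous_fst.tendsto (O, u)).comp hns1).comp hmst
  have hu' : Tendsto (fun k => (ns (ms k)).2) atTop (𝓝 u) :=
    ((continuous_snd.tendsto (O, u)).comp hns1).comp hmst
  have hmem : ∀ᶠ k in atTop, ns (ms k) ∈ M ×ˢ {u : P | u ≠ 0} := hmst.eventually hnsM
  have hw' : Tendsto (fun k => w (ms k)) atTop (𝓝 w0) := hlim
  have hv0 : ∀ᶠ k in atTop, v (ms k) ≠ 0 := by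
    filter_upwards [hmem] with k hk h0
    have h1 := hn.n1 _ hk.1 _ hk.2
    have h2 : n (ns (ms k)).1 (ns (ms k)).2 = 0 := h0
    rw [h2, dt_zero_right] at h1
    exact zero_ne_one h1
  have hnorm : ‖w0‖ = 1 := by
    have h1 : Tendsto (fun k => ‖w (ms k)‖) atTop (𝓝 ‖w0‖) := hw'.norm
    have h2 : Tendsto (fun k => ‖w (ms k)‖) atTop (𝓝 1) := by
      refine tendsto_const_nhds.congr' ?_
      filter_upwards [hv0] with k hk
      simp only [hw, norm_smul, norm_inv, norm_norm]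
      rw [inv_mul_cancel₀ (norm_ne_zero_iff.mpr hk)]
    exact tendsto_nhds_unique h1 h2
  have hw00 : w0 ≠ 0 := by
    intro h
    rw [h, norm_zero] at hnorm
    exact zero_ne_one hnorm
  -- the scale
  have ha : Tendsto (fun k => ‖v (ms k)‖⁻¹) atTop (𝓝 (dt u w0)) := by
    have h1 : Tendsto (fun k => dt (ns (ms k)).2 (w (ms k))) atTop (𝓝 (dt u w0)) :=
      (dt_cont.tendsto (u, w0)).comp (hu'.prodMk_nhds hw')
    refine h1.congr' ?_
    filter_upwards [hmem] with k hk
    simp only [hw]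
    rw [dt_smul_right]
    have h2 := hn.n1 _ hk.1 _ hk.2
    have h3 : dt (ns (ms k)).2 (v (ms k)) = 1 := h2
    rw [h3, mul_one]
  -- the limit direction
  obtain ⟨l, hl, hX⟩ := small_mem H.opn hO w0
  have hXk : Tendsto (fun k => (ns (ms k)).1 + l • w (ms k)) atTop (𝓝 (O + l • w0)) :=
    hO'.add (hw'.const_smul l)
  have hXkM : ∀ᶠ k in atTop, (ns (ms k)).1 + l • w (ms k) ∈ M := hXk (H.opn.mem_nhds hX)
  have hOkM : ∀ᶠ k in atTop, (ns (ms k)).1 ∈ M := hO' (H.opn.mem_nhds hO)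
  obtain ⟨l', hl'⟩ := hn.n3 O hO u hu (O + l • w0) hX (fun t ht => by
    rcases eq_or_ne t 0 with h0 | h0
    · rw [h0, zero_smul, add_zero]
    · have hYk : Tendsto (fun k => (ns (ms k)).1 + t • (ns (ms k)).2) atTop (𝓝 (O + t • u)) :=
        hO'.add (hu'.const_smul t)
      have hYkM : ∀ᶠ k in atTop, (ns (ms k)).1 + t • (ns (ms k)).2 ∈ M :=
        hYk (H.opn.mem_nhds ht)
      have c1 : Tendsto (fun k => d ((ns (ms k)).1 + l • w (ms k)) (ns (ms k)).1) atTop
          (𝓝 (d (O + l • w0) O)) := by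
        have h1 := H.cont (O + l • w0, O) ⟨hX, hO⟩
        refine Tendsto.comp h1 (tendsto_nhdsWithin_iff.2 ⟨hXk.prodMk_nhds hO', ?_⟩)
        filter_upwards [hXkM, hOkM] with k h2 h3 using ⟨h2, h3⟩
      have c2 : Tendsto (fun k => d ((ns (ms k)).1 + l • w (ms k))
          ((ns (ms k)).1 + t • (ns (ms k)).2)) atTop (𝓝 (d (O + l • w0) (O + t • u))) := by
        have h1 := H.cont (O + l • w0, O + t • u) ⟨hX, ht⟩
        refine Tendsto.comp h1 (tendsto_nhdsWithin_iff.2 ⟨hXk.prodMk_nhds hYk, ?_⟩)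
        filter_upwards [hXkM, hYkM] with k h2 h3 using ⟨h2, h3⟩
      refine le_of_tendsto_of_tendsto c1 c2 ?_
      filter_upwards [hmem, hXkM, hYkM] with k h1 h2 h3
      have e : l • w (ms k) = (l * ‖v (ms k)‖⁻¹) • n (ns (ms k)).1 (ns (ms k)).2 := by
        rw [mul_smul]
      rw [e] at h2 ⊢
      exact (hn.n2 _ h1.1 _ h1.2 _ t h0 h2 h3).le)
  have h1 : l • w0 = l' • n O u := add_left_cancel hl'
  have h2 := congrArg (dt u) h1
  rw [dt_smul_right, dt_smul_right, hn.n1 O hO u hu, mul_one] at h2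
  have h3 : w0 = (dt u w0) • n O u := by
    have : l • w0 = l • ((dt u w0) • n O u) := by rw [h1, smul_smul, h2]
    exact smul_right_injective P hl.ne' this
  have h4 : dt u w0 ≠ 0 := by
    intro h
    rw [h, zero_smul] at h3
    exact hw00 h3
  have h5 : Tendsto (fun k => (‖v (ms k)‖⁻¹)⁻¹ • w (ms k)) atTop (𝓝 ((dt u w0)⁻¹ • w0)) :=
    (ha.inv₀ h4).smul hw'
  have h6 : (dt u w0)⁻¹ • w0 = n O u := by
    conv_lhs => rw [h3]
    rw [dt_smul_right, hn.n1 O hO u hu, mul_one, smul_smul, inv_mul_cancel₀ h4, one_smul]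
  rw [h6] at h5
  refine h5.congr' ?_
  filter_upwards [hv0] with k hk
  simp only [hw]
  rw [smul_smul, inv_inv, mul_inv_cancel₀ (norm_ne_zero_iff.mpr hk), one_smul]

end Pool.Agent.W352.PM
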